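import Pool.Agent.H10.HH.COMb

/-!
# The sum over `n` (row COM)
-/

set_option autoImplicit false

open NumberField Complex Filter Topology MeasureTheory
open scoped ContDiff nonZeroDivisors

namespace Pool.Agent.H10.HH

open Pool.Agent.H33.HH Pool.Agent.H28.RC Pool.Agent.H37.CV Pool.Agent.H96.CV

section fin

theorem main_sum {α : Type} {ι : Type} (X : Finset ι) (Y : Finset α) (hk ℓ : ι → ℝ) (f b : α → ℝ)
    (φ rr a : ℝ) (hφ : φ ≠ 0) (hs : ∑ i ∈ X, hk i = φ) :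
    ∑ i ∈ X, hk i * (rr * ∑ E ∈ Y, f E * (a + ℓ i + b E)) =
      rr * φ * ∑ E ∈ Y, f E * (a + 1 / φ * (∑ i ∈ X, hk i * ℓ i) + b E) := by
  have h1 : ∀ i ∈ X, hk i * (rr * ∑ E ∈ Y, f E * (a + ℓ i + b E)) =
      ∑ E ∈ Y, rr * f E * (hk i * (a + b E) + hk i * ℓ i) := by
    intro i _
    rw [Finset.mul_sum, Finset.mul_sum]
    exact Finset.sum_congr rfl fun E _ => by ring
  rw [Finset.sum_congr rfl h1, Finset.sum_comm, Finset.mul_sum]
  refine Finset.sum_congr rfl fun E _ => ?_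
  rw [← Finset.mul_sum, Finset.sum_add_distrib, ← Finset.sum_mul, hs]
  have h2 : φ * (1 / φ * (∑ i ∈ X, hk i * ℓ i)) = ∑ i ∈ X, hk i * ℓ i := by
    rw [← mul_assoc, mul_one_div_cancel hφ, one_mul]
  calc rr * f E * (φ * (a + b E) + ∑ i ∈ X, hk i * ℓ i) =
        rr * f E * (φ * (a + b E) + φ * (1 / φ * (∑ i ∈ X, hk i * ℓ i))) := by rw [h2]
    _ = _ := by ring

theorem err_sum {Q δ₀ δ θ rh W1 A D n C₃ s x st S0 T0 : ℝ} (hQ : 1 ≤ Q) (hδ : δ = δ₀ / 2)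
    (hδ0 : 0 < δ₀) (hθ : θ ≤ 1)
    (hrh : 0 ≤ rh) (hW : 0 ≤ W1) (hD : 0 ≤ D) (hn : 0 ≤ n) (hs0 : 0 ≤ s)
    (hs : s ≤ C₃ * S0 ^ (δ₀ / 4)) (hC₃ : 0 ≤ C₃) (hS0 : 1 ≤ S0) (hSQ : S0 ≤ Q ^ θ) (hT0 : 1 ≤ T0)
    (hst : 0 ≤ st)
    (hA : A = 1 / 2 * rh * W1 * n * D * C₃ ^ 2)
    (hx : x ≤ n * (D * s * Q ^ (-δ₀) * (s * st))) :
    1 / 2 * rh * W1 * Q ^ 2 * (1 / (S0 * T0)) * x ≤
      A * (Q ^ (2 - δ) * (st / (S0 * T0))) := by
  have hQ0 : 0 < Q := by linarith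
  have h1 : s ≤ C₃ * Q ^ (δ₀ / 4) := by
    refine hs.trans (mul_le_mul_of_nonneg_left ?_ hC₃)
    refine Real.rpow_le_rpow (by linarith) (hSQ.trans ?_) (by linarith)
    calc Q ^ θ ≤ Q ^ (1 : ℝ) := Real.rpow_le_rpow_of_exponent_le hQ hθ
      _ = Q := Real.rpow_one Q
  have h2 : s * s ≤ C₃ ^ 2 * Q ^ (δ₀ / 2) := by
    calc s * s ≤ (C₃ * Q ^ (δ₀ / 4)) * (C₃ * Q ^ (δ₀ / 4)) :=
          mul_le_mul h1 h1 hs0 (by positivity)
      _ = C₃ ^ 2 * (Q ^ (δ₀ / 4) * Q ^ (δ₀ / 4)) := by ring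
      _ = C₃ ^ 2 * Q ^ (δ₀ / 2) := by
          rw [← Real.rpow_add hQ0]
          congr 2
          ring
  have h3 : Q ^ (δ₀ / 2) * Q ^ (-δ₀) * Q ^ 2 = Q ^ (2 - δ) := by
    rw [← Real.rpow_add hQ0, ← Real.rpow_natCast Q 2, ← Real.rpow_add hQ0]
    congr 1
    rw [hδ]
    push_cast
    ring
  have hq : 0 < Q ^ (-δ₀) := Real.rpow_pos_of_pos hQ0 _
  have h4 : x ≤ n * D * (C₃ ^ 2 * Q ^ (δ₀ / 2)) * Q ^ (-δ₀) * st := by
    calc x ≤ n * (D * s * Q ^ (-δ₀) * (s * st)) := hx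
      _ = n * D * (s * s) * Q ^ (-δ₀) * st := by ring
      _ ≤ _ := by
          refine mul_le_mul_of_nonneg_right ?_ hst
          refine mul_le_mul_of_nonneg_right ?_ hq.le
          exact mul_le_mul_of_nonneg_left h2 (mul_nonneg hn hD)
  have h5 : 0 ≤ 1 / 2 * rh * W1 * Q ^ 2 * (1 / (S0 * T0)) := by positivity
  refine (mul_le_mul_of_nonneg_left h4 h5).trans (le_of_eq ?_)
  rw [← h3, hA]
  ring

end fin

open scoped Classical in
theorem pf_COM (h1 : T_CO1) (h2 : T_PSB) (h3 : T_SLP) (h4 : T_SLS) (h5 : T_SLG) (h6 : T_LGP)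
    (h7 : T_HSU) (h8 : T_IDF) : T_COM := by
  intro K _ _ _ P W G H k θ e hW hW1 hG hH hk hpar
  obtain ⟨ps', A₁, hA₁, hps⟩ := h2 K W H hW hW1 hH
  obtain ⟨A₂, hA₂, hGs⟩ := h5 G hG
  obtain ⟨g, C₁, hC₁, hco⟩ := h1 K P
  have hB0 : 0 ≤ 2 * (1 + A₂) * (1 + A₂) := by positivity
  obtain ⟨C₂, hC₂, hlg⟩ := h6 A₁ (2 * (1 + A₂) * (1 + A₂)) hA₁ hB0
  have hpar' := hpar
  obtain ⟨hθ, he, hle⟩ := hpar
  set δ₀ : ℝ := min e (1 - θ) / 4 with hδ₀
  have hδ₀p : 0 < δ₀ := by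
    have : 0 < min e (1 - θ) := lt_min he (by linarith)
    positivity
  have hd1 : δ₀ ≤ (1 - θ) / 4 := by
    have : min e (1 - θ) ≤ 1 - θ := min_le_right _ _
    linarith
  have hd2 : δ₀ ≤ e / 4 := by
    have : min e (1 - θ) ≤ e := min_le_left _ _
    linarith
  obtain ⟨C₃, hC₃, -, hdv⟩ := (Pool.Agent.H86.CV.pf_DV K).1 (δ₀ / 4) (by positivity)
  have hk0 : k ≠ ⊥ := hk.1
  have hk1 : 1 ≤ nm k := one_le_nm hk0
  set c₀ : ℝ := nm k * nS np (SP K P) with hc₀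
  have hc₀p : 0 < c₀ := mul_pos (by linarith) (nS_pos _)
  set φ : ℝ := ∏ p ∈ SP K P, (1 - 1 / np p) with hφ
  have hφp : 0 < φ := by
    refine Finset.prod_pos fun p _ => ?_
    have h1 := two_le_np p
    rw [sub_pos, div_lt_one (by linarith)]
    linarith
  have hrh : 0 ≤ rh K := by
    unfold rh hc wu sd
    positivity
  have hrk : rk K P = rh K * φ := rfl
  have hrk0 : 0 ≤ rk K P := by rw [hrk]; positivity
  set D : ℝ := C₁ * (2 * (1 + A₁) * (1 + 2 * (1 + A₂) * (1 + A₂))) +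
    rk K P * (C₂ * c₀ ^ (1 / 4 : ℝ)) with hD
  have hD0 : 0 ≤ D := by positivity
  set n₀ : ℝ := ((SP K P).powerset.card : ℝ) with hn₀
  refine ⟨Real.log (nm k) + g + Lg (ps K W H) +
    1 / φ * ∑ R₀ ∈ (SP K P).powerset, H33.HH.hk P k R₀ * Real.log (nS np R₀), δ₀ / 2,
    1 / 2 * rh K * W1 W * n₀ * D * C₃ ^ 2, max 1 (c₀ ^ (1 / e)), by positivity, by positivity,
    le_max_left _ _, ?_⟩
  intro Q hQ S hS T hT
  have hQ1 : 1 ≤ Q := le_trans (le_max_left _ _) hQ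
  have hQ0 : 0 < Q := by linarith
  have hQc : c₀ * Q ^ (-e) ≤ 1 := by
    have h1 : c₀ ^ (1 / e) ≤ Q := le_trans (le_max_right _ _) hQ
    have h2 : c₀ ≤ Q ^ e := by
      calc c₀ = (c₀ ^ (1 / e)) ^ e := by
            rw [← Real.rpow_mul hc₀p.le, one_div, inv_mul_cancel₀ he.ne', Real.rpow_one]
        _ ≤ Q ^ e := Real.rpow_le_rpow (by positivity) h1 he.le
    rw [Real.rpow_neg hQ0.le, ← div_eq_mul_inv, div_le_one (Real.rpow_pos_of_pos hQ0 _)]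
    exact h2
  have hy : 1 ≤ Q ^ θ := Real.one_le_rpow hQ1 hθ.le
  obtain ⟨hS3, hS4, hS5, hS1, hS2, hS6, -⟩ := h8 K P (Q ^ θ) hy S hS
  obtain ⟨hT3, hT4, hT5, hT1, hT2, -⟩ := h8 K P (Q ^ θ) hy T hT
  obtain ⟨-, hsum, habs, -⟩ := h7 K P (Q ^ θ) hy S hS (idS T) k hT3 hT4 hk
  have hZ0 : 0 < Q ^ (1 + e) := Real.rpow_pos_of_pos hQ0 _
  -- the terms
  set X : Finset (PrI K) → Finset (PrI K) → ℝ := fun R₁ R₀ =>
    sumC (K := K) P (fun n => ha R₁ (idS T * n) *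
        (ps K W H (nS np T / (nm k * (nS np R₁ * nS np R₀) * Q) * nm n) *
          (G ((Q ^ (1 + e))⁻¹ * nm n) * G (nS np T / (nS np S * Q ^ (1 + e)) * nm n)) / nm n))
    with hX
  set M : Finset (PrI K) → Finset (PrI K) → ℝ := fun R₁ R₀ =>
    rk K P * fS np (R₁ ∩ T) * (if R₁ \ T = ∅ then (Real.log (nm k) + Real.log (nS np R₀) +
        Real.log Q - Real.log (nS np T) + g + Lg (ps K W H)) + Real.log (nS np (R₁ ∩ T)) else
          if (R₁ \ T).card = 1 then -Real.log (nS np (R₁ \ T)) else 0) with hM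
  have hkey : ∀ R₁ ∈ S.powerset, ∀ R₀ ∈ (SP K P).powerset,
      |X R₁ R₀ - M R₁ R₀| ≤ D * 2 ^ S.card * fS np (R₁ ∩ T) * Q ^ (-δ₀) := fun R₁ hR₁ R₀ hR₀ =>
    key h3 h4 h8 P W G H k hk0 θ e hpar' A₁ A₂ _ g C₁ C₂ (rk K P) ps' hA₁ hA₂ rfl hC₁ hC₂ hrk0
      hps hGs hco hlg Q δ₀ c₀ hQ1 hc₀ hQc hd1 hd2 S hS T hT R₁ hR₁ R₀ hR₀
  -- exchange of the sums
  have hE : Eab P (Q ^ (1 + e)) Q W G H k S (idS T) =
      1 / 2 * rh K * W1 W * Q ^ 2 * (1 / (nS np S * nS np T)) *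
        ∑ R₁ ∈ S.powerset, ∑ R₀ ∈ (SP K P).powerset, H33.HH.hk P k R₀ * X R₁ R₀ := by
    unfold Eab
    rw [hT5]
    congr 1
    have e1 : (fun n : Ideal (𝓞 K) => 1 / nm n *
        (G (nm n / Q ^ (1 + e)) * G (nS np T * nm n / (nS np S * Q ^ (1 + e)))) *
        ∑ R₁ ∈ S.powerset, ∑ R₀ ∈ (SP K P).powerset, ha R₁ (idS T * n) * H33.HH.hk P k R₀ *
          ps K W H (nS np T * nm n / (nm k * (nS np R₁ * nS np R₀) * Q))) =
        fun n => ∑ q ∈ S.powerset ×ˢ (SP K P).powerset, H33.HH.hk P k q.2 *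
          (ha q.1 (idS T * n) *
            (ps K W H (nS np T / (nm k * (nS np q.1 * nS np q.2) * Q) * nm n) *
          (G ((Q ^ (1 + e))⁻¹ * nm n) * G (nS np T / (nS np S * Q ^ (1 + e)) * nm n)) /
            nm n)) := by
      funext n
      rw [Finset.sum_product, Finset.mul_sum]
      refine Finset.sum_congr rfl fun R₁ _ => ?_
      rw [Finset.mul_sum]
      refine Finset.sum_congr rfl fun R₀ _ => ?_
      have a1 : nm n / Q ^ (1 + e) = (Q ^ (1 + e))⁻¹ * nm n := by ring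
      have a2 : nS np T * nm n / (nS np S * Q ^ (1 + e)) =
          nS np T / (nS np S * Q ^ (1 + e)) * nm n := by ring
      have a3 : nS np T * nm n / (nm k * (nS np R₁ * nS np R₀) * Q) =
          nS np T / (nm k * (nS np R₁ * nS np R₀) * Q) * nm n := by ring
      rw [a1, a2, a3]
      ring
    rw [e1, sumC_sum P (3 * Q ^ (1 + e))]
    · rw [Finset.sum_product]
      refine Finset.sum_congr rfl fun R₁ _ => Finset.sum_congr rfl fun R₀ _ => ?_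
      exact sumC_mul P _ _
    · intro q _ n _ hn
      have : G ((Q ^ (1 + e))⁻¹ * nm n) = 0 := by
        refine hG.high _ ?_
        rw [← div_eq_inv_mul, le_div_iff₀ hZ0]
        exact hn.le
      rw [this]
      ring
  -- the main terms
  have hMs : ∑ R₁ ∈ S.powerset, ∑ R₀ ∈ (SP K P).powerset, H33.HH.hk P k R₀ * M R₁ R₀ =
      rk K P * φ * Vst (Real.log Q + (Real.log (nm k) + g + Lg (ps K W H) +
    1 / φ * ∑ R₀ ∈ (SP K P).powerset, H33.HH.hk P k R₀ * Real.log (nS np R₀))) S T := by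
    rw [Finset.sum_comm]
    have b1 : ∀ R₀ ∈ (SP K P).powerset, ∑ R₁ ∈ S.powerset, H33.HH.hk P k R₀ * M R₁ R₀ =
        H33.HH.hk P k R₀ * (rk K P * ∑ E ∈ (S ∩ T).powerset, fS np E *
          ((Real.log (nm k) + g + Lg (ps K W H) + Real.log Q) + Real.log (nS np R₀) +
            (Real.log (nS np E) - Real.log (nS np S) - Real.log (nS np T) +
              Real.log (nS np (S ∩ T))))) := by
      intro R₀ _
      rw [← Finset.mul_sum]
      congr 1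
      have := sum_main (N := (np : PrI K → ℝ)) np_pos S T (rk K P)
        (Real.log (nm k) + Real.log (nS np R₀) +
        Real.log Q - Real.log (nS np T) + g + Lg (ps K W H))
      refine this.trans ?_
      congr 1
      exact Finset.sum_congr rfl fun E _ => by ring
    rw [Finset.sum_congr rfl b1, main_sum _ _ _ _ _ _ φ _ _ hφp.ne' hsum]
    congr 1
    unfold Vst
    exact Finset.sum_congr rfl fun E _ => by ring
  have hfin : 1 / 2 * rk K P ^ 2 * W1 W * Q ^ 2 *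
      (Vst (Real.log Q + (Real.log (nm k) + g + Lg (ps K W H) +
    1 / φ * ∑ R₀ ∈ (SP K P).powerset, H33.HH.hk P k R₀ * Real.log (nS np R₀))) S T /
        (nS np S * nS np T)) = 1 / 2 * rh K * W1 W * Q ^ 2 * (1 / (nS np S * nS np T)) *
        ∑ R₁ ∈ S.powerset, ∑ R₀ ∈ (SP K P).powerset, H33.HH.hk P k R₀ * M R₁ R₀ := by
    rw [hMs]
    have : rk K P ^ 2 = rh K * (rk K P * φ) := by
      rw [sq]
      nth_rewrite 1 [hrk]
      ring
    rw [this]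
    ring
  have hκ : 0 ≤ 1 / 2 * rh K * W1 W * Q ^ 2 * (1 / (nS np S * nS np T)) := by positivity
  rw [hE, hfin, ← mul_sub, abs_mul, abs_of_nonneg hκ, ← Finset.sum_sub_distrib]
  have hsmall : |∑ R₁ ∈ S.powerset, (∑ R₀ ∈ (SP K P).powerset, H33.HH.hk P k R₀ * X R₁ R₀ -
      ∑ R₀ ∈ (SP K P).powerset, H33.HH.hk P k R₀ * M R₁ R₀)| ≤
      n₀ * (D * 2 ^ S.card * Q ^ (-δ₀) * (2 ^ S.card * nS np (S ∩ T))) := by
    refine (Finset.abs_sum_le_sum_abs _ _).trans ?_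
    have c1 : ∀ R₁ ∈ S.powerset, |∑ R₀ ∈ (SP K P).powerset, H33.HH.hk P k R₀ * X R₁ R₀ -
        ∑ R₀ ∈ (SP K P).powerset, H33.HH.hk P k R₀ * M R₁ R₀| ≤
        n₀ * (D * 2 ^ S.card * Q ^ (-δ₀)) * fS np (R₁ ∩ T) := by
      intro R₁ hR₁
      rw [← Finset.sum_sub_distrib]
      refine (Finset.abs_sum_le_sum_abs _ _).trans ?_
      have c2 : ∀ R₀ ∈ (SP K P).powerset,
          |H33.HH.hk P k R₀ * X R₁ R₀ - H33.HH.hk P k R₀ * M R₁ R₀| ≤
            D * 2 ^ S.card * Q ^ (-δ₀) * fS np (R₁ ∩ T) := by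
        intro R₀ hR₀
        rw [← mul_sub, abs_mul]
        calc |H33.HH.hk P k R₀| * |X R₁ R₀ - M R₁ R₀| ≤
              1 * (D * 2 ^ S.card * fS np (R₁ ∩ T) * Q ^ (-δ₀)) :=
              mul_le_mul (habs R₀ hR₀) (hkey R₁ hR₁ R₀ hR₀) (abs_nonneg _) zero_le_one
          _ = _ := by ring
      refine (Finset.sum_le_sum c2).trans (le_of_eq ?_)
      rw [Finset.sum_const, nsmul_eq_mul]
      ring
    refine (Finset.sum_le_sum c1).trans ?_
    rw [← Finset.mul_sum]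
    have c3 := sum_err (N := (np : PrI K → ℝ)) (fun p => by linarith [two_le_np p]) S T
    calc n₀ * (D * 2 ^ S.card * Q ^ (-δ₀)) * ∑ R₁ ∈ S.powerset, fS np (R₁ ∩ T) ≤
          n₀ * (D * 2 ^ S.card * Q ^ (-δ₀)) * (2 ^ S.card * nS np (S ∩ T)) :=
          mul_le_mul_of_nonneg_left c3 (by positivity)
      _ = _ := by ring
  have hd := hdv (idS S) hS3
  rw [hS6, hS5] at hd
  unfold Er
  exact err_sum hQ1 rfl hδ₀p (by linarith) hrh hW1.le hD0 (by positivity) (by positivity) hd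
    (by linarith) hS1 hS2 hT1 (nS_pos _).le rfl hsmall

end Pool.Agent.H10.HH
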