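import Pool.Agent.H33.HH.TC
import Pool.Agent.H86.CV.DV
import Pool.Agent.H96.CV.Basic

/-!
# The sum over `n` (row COM): combinatorics and finite sums
-/

set_option autoImplicit false

open NumberField Complex Filter Topology MeasureTheory
open scoped ContDiff nonZeroDivisors

namespace Pool.Agent.H10.HH

open Pool.Agent.H33.HH Pool.Agent.H28.RC Pool.Agent.H37.CV

section comb

variable {α : Type} [DecidableEq α]

theorem sum_split (S T : Finset α) (h : Finset α → Finset α → ℝ) :
    ∑ R ∈ S.powerset, h (R ∩ T) (R \ T) =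
      ∑ E ∈ (S ∩ T).powerset, ∑ D ∈ (S \ T).powerset, h E D := by
  rw [← Finset.sum_product']
  refine Finset.sum_nbij' (fun R => (R ∩ T, R \ T)) (fun q => q.1 ∪ q.2) ?_ ?_ ?_ ?_ ?_
  · intro R hR
    rw [Finset.mem_powerset] at hR
    rw [Finset.mem_product, Finset.mem_powerset, Finset.mem_powerset]
    exact ⟨Finset.inter_subset_inter_right hR, Finset.sdiff_subset_sdiff hR subset_rfl⟩
  · intro q hq
    rw [Finset.mem_product, Finset.mem_powerset, Finset.mem_powerset] at hq
    rw [Finset.mem_powerset]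
    exact Finset.union_subset (hq.1.trans Finset.inter_subset_left)
      (hq.2.trans Finset.sdiff_subset)
  · intro R hR
    ext x
    simp only [Finset.mem_union, Finset.mem_inter, Finset.mem_sdiff]
    tauto
  · intro q hq
    rw [Finset.mem_product, Finset.mem_powerset, Finset.mem_powerset] at hq
    have e1 : ∀ x, x ∈ q.1 → x ∈ T := fun x hx => (Finset.mem_inter.1 (hq.1 hx)).2
    have e2 : ∀ x, x ∈ q.2 → x ∉ T := fun x hx => (Finset.mem_sdiff.1 (hq.2 hx)).2
    refine Prod.ext ?_ ?_
    · ext x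
      simp only [Finset.mem_union, Finset.mem_inter]
      constructor
      · rintro ⟨h1 | h1, h2⟩
        · exact h1
        · exact absurd h2 (e2 x h1)
      · exact fun h1 => ⟨Or.inl h1, e1 x h1⟩
    · ext x
      simp only [Finset.mem_union, Finset.mem_sdiff]
      constructor
      · rintro ⟨h1 | h1, h2⟩
        · exact absurd (e1 x h1) h2
        · exact h1
      · exact fun h1 => ⟨Or.inr h1, e2 x h1⟩
  · intro R hR
    rfl

theorem nS_split (N : α → ℝ) (R T : Finset α) : nS N R = nS N (R ∩ T) * nS N (R \ T) := by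
  unfold nS
  exact (Finset.prod_inter_mul_prod_sdiff R T N).symm

theorem sum_fS (N : α → ℝ) (X : Finset α) : ∑ E ∈ X.powerset, fS N E = nS N X := by
  unfold fS nS
  rw [← Finset.prod_one_add]
  exact Finset.prod_congr rfl fun P _ => by ring

theorem log_nS {N : α → ℝ} (hN : ∀ p, 0 < N p) (X : Finset α) :
    Real.log (nS N X) = ∑ p ∈ X, Real.log (N p) := by
  unfold nS
  exact Real.log_prod fun p _ => (hN p).ne'

/-- the sum over the part outside `T` -/
theorem sum_out {N : α → ℝ} (hN : ∀ p, 0 < N p) (X : Finset α) (a : ℝ) :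
    ∑ D ∈ X.powerset, (if D = ∅ then a else if D.card = 1 then -Real.log (nS N D) else 0) =
      a - Real.log (nS N X) := by
  have e1 : ∀ D ∈ X.powerset,
      (if D = ∅ then a else if D.card = 1 then -Real.log (nS N D) else 0) =
      (if D = ∅ then a else 0) + if D.card = 1 then -Real.log (nS N D) else 0 := by
    intro D _
    by_cases h : D = ∅
    · rw [if_pos h, if_pos h, h, Finset.card_empty, if_neg (by norm_num), add_zero]
    · rw [if_neg h, if_neg h, zero_add]
  rw [Finset.sum_congr rfl e1, Finset.sum_add_distrib, Finset.sum_ite_eq' X.powerset ∅,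
    if_pos (Finset.empty_mem_powerset X), ← Finset.sum_filter, ← Finset.powersetCard_eq_filter,
    Finset.powersetCard_one, Finset.sum_map, log_nS hN]
  have e2 : ∀ p ∈ X, -Real.log (nS N ((⟨singleton, Finset.singleton_injective⟩ :
      α ↪ Finset α) p)) = -Real.log (N p) := by
    intro p _
    simp [nS]
  rw [Finset.sum_congr rfl e2, Finset.sum_neg_distrib]
  ring

/-- the sum of the main terms -/
theorem sum_main {N : α → ℝ} (hN : ∀ p, 0 < N p) (S T : Finset α) (r L : ℝ) :
    ∑ R ∈ S.powerset, r * fS N (R ∩ T) * (if R \ T = ∅ then L + Real.log (nS N (R ∩ T)) else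
      if (R \ T).card = 1 then -Real.log (nS N (R \ T)) else 0) =
    r * ∑ E ∈ (S ∩ T).powerset, fS N E * (L + Real.log (nS N E) - Real.log (nS N S) +
      Real.log (nS N (S ∩ T))) := by
  have h1 := sum_split S T (fun E D => r * fS N E * (if D = ∅ then L + Real.log (nS N E) else
      if D.card = 1 then -Real.log (nS N D) else 0))
  refine h1.trans ?_
  rw [Finset.mul_sum]
  refine Finset.sum_congr rfl fun E _ => ?_
  rw [← Finset.mul_sum, sum_out hN]
  have h2 : Real.log (nS N S) = Real.log (nS N (S ∩ T)) + Real.log (nS N (S \ T)) := by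
    rw [nS_split N S T, Real.log_mul]
    · exact (Finset.prod_pos fun p _ => hN p).ne'
    · exact (Finset.prod_pos fun p _ => hN p).ne'
  rw [h2]
  ring

theorem sum_err (N : α → ℝ) (hN : ∀ p, 1 ≤ N p) (S T : Finset α) :
    ∑ R ∈ S.powerset, fS N (R ∩ T) ≤ 2 ^ S.card * nS N (S ∩ T) := by
  have h1 := sum_split S T (fun E _ => fS N E)
  have h2 : ∑ R ∈ S.powerset, fS N (R ∩ T) = 2 ^ (S \ T).card * nS N (S ∩ T) := by
    refine h1.trans ?_
    rw [← sum_fS, Finset.mul_sum]
    refine Finset.sum_congr rfl fun E _ => ?_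
    rw [Finset.sum_const, Finset.card_powerset, nsmul_eq_mul]
    push_cast
    ring
  rw [h2]
  refine mul_le_mul_of_nonneg_right ?_ (Finset.prod_nonneg fun p _ => le_trans zero_le_one (hN p))
  exact pow_le_pow_right₀ (by norm_num) (Finset.card_le_card Finset.sdiff_subset)

end comb

section sums

variable {K : Type} [Field K] [NumberField K]

theorem sumC_fin (P Z : ℝ) : ∃ s : Finset (NI K), ∀ f : Ideal (𝓞 K) → ℝ,
    (∀ n, n ≠ ⊥ → Z < nm n → f n = 0) →
    sumC P f = ∑ I ∈ s, open scoped Classical in if Cp P I.1 then f I.1 else 0 := by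
  classical
  have hfin : {I : NI K | nm I.1 ≤ Z}.Finite := by
    have h1 : {I : Ideal (𝓞 K) | Ideal.absNorm I ∈ Set.Iic ⌊Z⌋₊}.Finite :=
      Ideal.finite_setOf_absNorm_le ⌊Z⌋₊
    refine Set.Finite.preimage (Subtype.val_injective.injOn) h1 |>.subset ?_
    intro I hI
    exact Nat.le_floor hI
  refine ⟨hfin.toFinset, fun f hf => ?_⟩
  unfold sumC
  refine tsum_eq_sum fun I hI => ?_
  have h2 : Z < nm I.1 := by
    by_contra hc
    exact hI (hfin.mem_toFinset.2 (not_lt.1 hc))
  rw [hf I.1 I.2 h2, ite_self]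

theorem sumC_sum {ι : Type} (P Z : ℝ) (s : Finset ι) (f : ι → Ideal (𝓞 K) → ℝ)
    (hf : ∀ i ∈ s, ∀ n, n ≠ ⊥ → Z < nm n → f i n = 0) :
    sumC P (fun n => ∑ i ∈ s, f i n) = ∑ i ∈ s, sumC P (f i) := by
  classical
  obtain ⟨t, ht⟩ := sumC_fin (K := K) P Z
  rw [ht _ (fun n hn hZ => Finset.sum_eq_zero fun i hi => hf i hi n hn hZ),
    Finset.sum_congr rfl fun i hi => ht (f i) (hf i hi), Finset.sum_comm]
  refine Finset.sum_congr rfl fun I _ => ?_
  by_cases h : Cp P I.1
  · simp only [if_pos h]
  · simp only [if_neg h, Finset.sum_const_zero]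

theorem sumC_mul (P c : ℝ) (f : Ideal (𝓞 K) → ℝ) :
    sumC P (fun n => c * f n) = c * sumC P f := by
  classical
  unfold sumC
  rw [← tsum_mul_left]
  refine tsum_congr fun I => ?_
  by_cases h : Cp P I.1
  · simp only [if_pos h]
  · simp only [if_neg h, mul_zero]

end sums

end Pool.Agent.H10.HH
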