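import Pool.Agent.H10.HH.COMa

/-!
# The sum over `n` (row COM)
-/

set_option autoImplicit false

open NumberField Complex Filter Topology MeasureTheory
open scoped ContDiff nonZeroDivisors

namespace Pool.Agent.H10.HH

open Pool.Agent.H33.HH Pool.Agent.H28.RC Pool.Agent.H37.CV Pool.Agent.H96.CV

section reals

theorem real_a {Q θ e κ r1 r0 S0 T0 v w : ℝ} (hQ : 1 ≤ Q) (he : 0 < e)
    (hκ : 1 ≤ κ) (hr0 : 1 ≤ r0) (hS0 : 1 ≤ S0) (hT0 : 1 ≤ T0)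
    (hS2 : S0 ≤ Q ^ θ) (hT2 : T0 ≤ Q ^ θ) (hw1 : 1 ≤ w) (hv1 : 1 ≤ v) (hr1w : r1 = v * w)
    (hwS : w ≤ S0) :
    Q ^ (1 - θ) * w ≤ min (κ * (r1 * r0) * Q / T0) (min (Q ^ (1 + e)) (S0 * Q ^ (1 + e) / T0)) := by
  have hQ0 : 0 < Q := by linarith
  have hT0p : 0 < T0 := by linarith
  have hQθ : Q ^ (1 - θ) * Q ^ θ = Q := by
    rw [← Real.rpow_add hQ0]
    norm_num
  have hq0 : 0 < Q ^ (1 - θ) := Real.rpow_pos_of_pos hQ0 _
  have hQZ : Q ≤ Q ^ (1 + e) := by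
    calc Q = Q ^ (1 : ℝ) := (Real.rpow_one Q).symm
      _ ≤ Q ^ (1 + e) := Real.rpow_le_rpow_of_exponent_le hQ (by linarith)
  have hqT0 : Q ^ (1 - θ) * T0 ≤ Q := by
    calc Q ^ (1 - θ) * T0 ≤ Q ^ (1 - θ) * Q ^ θ := mul_le_mul_of_nonneg_left hT2 hq0.le
      _ = Q := hQθ
  refine le_min ?_ (le_min ?_ ?_)
  · rw [le_div_iff₀ hT0p, hr1w]
    calc Q ^ (1 - θ) * w * T0 = Q ^ (1 - θ) * T0 * w := by ring
      _ ≤ Q * w := mul_le_mul_of_nonneg_right hqT0 (by linarith)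
      _ ≤ κ * (v * w * r0) * Q := by
          have h1 : 1 ≤ κ * v := by nlinarith
          have h2 : 1 ≤ κ * v * r0 := by nlinarith
          have h3 : 0 ≤ w * Q := by positivity
          calc Q * w = 1 * (w * Q) := by ring
            _ ≤ κ * v * r0 * (w * Q) := mul_le_mul_of_nonneg_right h2 h3
            _ = κ * (v * w * r0) * Q := by ring
  · calc Q ^ (1 - θ) * w ≤ Q ^ (1 - θ) * Q ^ θ :=
          mul_le_mul_of_nonneg_left (hwS.trans hS2) hq0.le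
      _ = Q := hQθ
      _ ≤ Q ^ (1 + e) := hQZ
  · rw [le_div_iff₀ hT0p]
    calc Q ^ (1 - θ) * w * T0 = w * (Q ^ (1 - θ) * T0) := by ring
      _ ≤ S0 * Q ^ (1 + e) := mul_le_mul hwS (hqT0.trans hQZ) (by positivity) (by linarith)

theorem real_b {Q θ δ₀ w Ts : ℝ} (hQ : 1 ≤ Q) (hθ : θ ≤ 1) (hd1 : δ₀ ≤ (1 - θ) / 4)
    (hw1 : 1 ≤ w) (m4 : Q ^ (1 - θ) * w ≤ Ts) :
    w ≤ Ts ∧ (Ts / w) ^ (-(1 / 4) : ℝ) ≤ Q ^ (-δ₀) := by
  have hQ0 : 0 < Q := by linarith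
  have hq0 : 0 < Q ^ (1 - θ) := Real.rpow_pos_of_pos hQ0 _
  have hq1 : 1 ≤ Q ^ (1 - θ) := Real.one_le_rpow hQ (by linarith)
  have hw0 : 0 < w := by linarith
  constructor
  · calc w = 1 * w := (one_mul w).symm
      _ ≤ Q ^ (1 - θ) * w := mul_le_mul_of_nonneg_right hq1 hw0.le
      _ ≤ Ts := m4
  · have h1 : Q ^ (1 - θ) ≤ Ts / w := by
      rw [le_div_iff₀ hw0]
      exact m4
    calc (Ts / w) ^ (-(1 / 4) : ℝ) ≤ (Q ^ (1 - θ)) ^ (-(1 / 4) : ℝ) :=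
          Real.rpow_le_rpow_of_nonpos hq0 h1 (by norm_num)
      _ = Q ^ ((1 - θ) * (-(1 / 4))) := (Real.rpow_mul hQ0.le _ _).symm
      _ ≤ Q ^ (-δ₀) := Real.rpow_le_rpow_of_exponent_le hQ (by linarith)

theorem real_c {Q e κ r1 r0 S0 T0 c₀ : ℝ} (hQ : 1 ≤ Q) (hκ : 1 ≤ κ) (hr0 : 1 ≤ r0)
    (hr1 : 1 ≤ r1) (hS0 : 1 ≤ S0) (hT0 : 1 ≤ T0) (hr0c : κ * r0 ≤ c₀) (hr1T : r1 ≤ T0)
    (hr1S : r1 ≤ S0) :
    κ * (r1 * r0) * Q / T0 ≤ c₀ * Q ^ (-e) * min (Q ^ (1 + e)) (S0 * Q ^ (1 + e) / T0) := by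
  have hQ0 : 0 < Q := by linarith
  have hT0p : 0 < T0 := by linarith
  have hc₀p : 0 < c₀ := by nlinarith
  have h1 : Q ^ (-e) * Q ^ (1 + e) = Q := by
    rw [← Real.rpow_add hQ0]
    norm_num
  rcases min_choice (Q ^ (1 + e)) (S0 * Q ^ (1 + e) / T0) with h | h
  · rw [h, mul_assoc c₀, h1, div_le_iff₀ hT0p]
    calc κ * (r1 * r0) * Q = κ * r0 * (r1 * Q) := by ring
      _ ≤ c₀ * (T0 * Q) := mul_le_mul hr0c (mul_le_mul_of_nonneg_right hr1T hQ0.le)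
          (by positivity) hc₀p.le
      _ = c₀ * Q * T0 := by ring
  · have h2 : c₀ * Q ^ (-e) * (S0 * Q ^ (1 + e) / T0) = c₀ * Q * S0 / T0 := by
      calc c₀ * Q ^ (-e) * (S0 * Q ^ (1 + e) / T0) =
            c₀ * (Q ^ (-e) * Q ^ (1 + e)) * S0 / T0 := by ring
        _ = _ := by rw [h1]
    rw [h, h2]
    refine div_le_div_of_nonneg_right ?_ hT0p.le
    calc κ * (r1 * r0) * Q = κ * r0 * (r1 * Q) := by ring
      _ ≤ c₀ * (S0 * Q) := mul_le_mul hr0c (mul_le_mul_of_nonneg_right hr1S hQ0.le)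
          (by positivity) hc₀p.le
      _ = c₀ * Q * S0 := by ring

theorem real_d {Q e δ₀ c₀ T1 U : ℝ} (hQ : 1 ≤ Q) (hc : 0 ≤ c₀) (hT : 0 ≤ T1) (hU : 0 < U)
    (hd2 : δ₀ ≤ e / 4) (n3 : T1 ≤ c₀ * Q ^ (-e) * U) :
    (T1 / U) ^ (1 / 4 : ℝ) ≤ c₀ ^ (1 / 4 : ℝ) * Q ^ (-δ₀) := by
  have hQ0 : 0 < Q := by linarith
  have h1 : T1 / U ≤ c₀ * Q ^ (-e) := by
    rw [div_le_iff₀ hU]
    exact n3
  calc (T1 / U) ^ (1 / 4 : ℝ) ≤ (c₀ * Q ^ (-e)) ^ (1 / 4 : ℝ) :=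
        Real.rpow_le_rpow (by positivity) h1 (by norm_num)
    _ = c₀ ^ (1 / 4 : ℝ) * Q ^ (-e * (1 / 4)) := by
        rw [Real.mul_rpow hc (by positivity), ← Real.rpow_mul hQ0.le]
    _ ≤ c₀ ^ (1 / 4 : ℝ) * Q ^ (-δ₀) := by
        refine mul_le_mul_of_nonneg_left ?_ (by positivity)
        exact Real.rpow_le_rpow_of_exponent_le hQ (by linarith)

theorem real_e {κ r1 r0 Q T0 : ℝ} (hκ : 1 ≤ κ) (hr1 : 1 ≤ r1) (hr0 : 1 ≤ r0) (hQ : 1 ≤ Q)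
    (hT0 : 1 ≤ T0) : Real.log (κ * (r1 * r0) * Q / T0) =
      Real.log κ + Real.log r1 + Real.log r0 + Real.log Q - Real.log T0 := by
  have a1 : κ ≠ 0 := by positivity
  have a2 : r1 ≠ 0 := by positivity
  have a3 : r0 ≠ 0 := by positivity
  have a4 : Q ≠ 0 := by positivity
  have a5 : T0 ≠ 0 := by positivity
  rw [Real.log_div (mul_ne_zero (mul_ne_zero a1 (mul_ne_zero a2 a3)) a4) a5,
    Real.log_mul (mul_ne_zero a1 (mul_ne_zero a2 a3)) a4,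
    Real.log_mul a1 (mul_ne_zero a2 a3), Real.log_mul a2 a3]
  ring

/-- the last step of the first case -/
theorem real_f {X rr fv Y Y' E1 C2 c4 q : ℝ} (hrr : 0 ≤ rr) (hf : 0 ≤ fv)
    (h1 : |X - rr * fv * Y| ≤ E1) (h2 : |Y - Y'| ≤ C2 * (c4 * q)) :
    |X - rr * fv * Y'| ≤ E1 + rr * (C2 * c4) * fv * q := by
  have h3 : X - rr * fv * Y' = (X - rr * fv * Y) + rr * fv * (Y - Y') := by ring
  rw [h3]
  refine (abs_add_le _ _).trans (add_le_add h1 ?_)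
  rw [abs_mul, abs_of_nonneg (mul_nonneg hrr hf)]
  calc rr * fv * |Y - Y'| ≤ rr * fv * (C2 * (c4 * q)) :=
        mul_le_mul_of_nonneg_left h2 (mul_nonneg hrr hf)
    _ = _ := by ring

end reals

section key

variable {K : Type} [Field K] [NumberField K]

open scoped Classical in
theorem nS_mono {X S : Finset (PrI K)} (h : X ⊆ S) : nS np X ≤ nS np S := by
  rw [nS_split np S X, Finset.inter_eq_right.2 h]
  exact le_mul_of_one_le_right (nS_pos X).le (one_le_nS _)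

theorem fS_nonneg (X : Finset (PrI K)) : 0 ≤ fS np X :=
  Finset.prod_nonneg fun p _ => by linarith [two_le_np p]

/-- the three factors -/
theorem sl3 (h3 : T_SLP) (h4 : T_SLS) {W G H : ℝ → ℝ} {A₁ A₂ B κ r Q T0 S0 Z : ℝ} {ps' : ℝ → ℝ}
    (hA₁ : 0 ≤ A₁) (hA₂ : 0 ≤ A₂) (hB : B = 2 * (1 + A₂) * (1 + A₂))
    (hps : Sl 1 A₁ (ps K W H) ps') (hG : Sl 1 A₂ G (deriv G)) (h1 : 0 < κ * r * Q) (hT : 0 < T0)
    (hS : 0 < S0) (hZ : 0 < Z) :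
    ∃ f₁' f₂' f₃' : ℝ → ℝ,
      Sl (κ * r * Q / T0) A₁ (fun t => ps K W H (T0 / (κ * r * Q) * t)) f₁' ∧
      Sl (min Z (S0 * Z / T0)) B (fun t => G (Z⁻¹ * t) * G (T0 / (S0 * Z) * t)) f₂' ∧
      Sl (min (κ * r * Q / T0) (min Z (S0 * Z / T0))) (2 * (1 + A₁) * (1 + B))
        (fun t => ps K W H (T0 / (κ * r * Q) * t) * (G (Z⁻¹ * t) * G (T0 / (S0 * Z) * t))) f₃' := by
  have hg1 : 0 < T0 / (κ * r * Q) := by positivity
  have hg3 : 0 < T0 / (S0 * Z) := by positivity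
  have e1 := h4 _ _ 1 A₁ _ one_pos hg1 hA₁ hps
  rw [one_div_div] at e1
  have e2 := h4 _ _ 1 A₂ _ one_pos (inv_pos.2 hZ) hA₂ hG
  rw [one_div, inv_inv] at e2
  have e3 := h4 _ _ 1 A₂ _ one_pos hg3 hA₂ hG
  rw [one_div_div] at e3
  have e23 := h3 _ _ _ _ Z (S0 * Z / T0) A₂ A₂ hZ (by positivity) hA₂ hA₂ e2 e3
  rw [← hB] at e23
  have hB0 : 0 ≤ B := by rw [hB]; positivity
  have e123 := h3 _ _ _ _ (κ * r * Q / T0) (min Z (S0 * Z / T0)) A₁ B (by positivity)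
    (lt_min hZ (by positivity)) hA₁ hB0 e1 e23
  exact ⟨_, _, _, e1, e23, e123⟩

open scoped Classical in
theorem key [IQ K] (h3 : T_SLP) (h4 : T_SLS) (h8 : T_IDF) (P : ℝ) (W G H : ℝ → ℝ)
    (k : Ideal (𝓞 K)) (hk : k ≠ ⊥) (θ e : ℝ) (hpar : Par θ e) (A₁ A₂ B g C₁ C₂ rr : ℝ)
    (ps' : ℝ → ℝ) (hA₁ : 0 ≤ A₁) (hA₂ : 0 ≤ A₂) (hB : B = 2 * (1 + A₂) * (1 + A₂))
    (hC₁ : 0 ≤ C₁) (hC₂ : 0 ≤ C₂) (hrr : 0 ≤ rr)
    (hps : Sl 1 A₁ (ps K W H) ps') (hG : Sl 1 A₂ G (deriv G))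
    (hco : ∀ (f f' : ℝ → ℝ) (T A y : ℝ), 0 ≤ A → 1 ≤ y → Sl T A f f' → ∀ S ∈ DP K P y,
      ∀ S' ∈ DP K P y, ∀ R ∈ S.powerset, nS np (R \ S') ≤ T →
      |sumC (K := K) P (fun n => ha R (idS S' * n) * (f (nm n) / nm n)) -
        rr * fS np (R ∩ S') * (if R ⊆ S' then Real.log T + g + Lg (fun u => f (T * u)) else
          if (R \ S').card = 1 then -Real.log (nS np (R \ S')) else 0)| ≤
        C₁ * A * 2 ^ R.card * fS np (R ∩ S') * (T / nS np (R \ S')) ^ (-(1 / 4) : ℝ))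
    (hlg : ∀ (f f' g g' : ℝ → ℝ) (T U : ℝ), 0 < T → T ≤ U → Sl T A₁ f f' → Sl U B g g' →
      |Lg (fun u => f (T * u) * g (T * u)) - Lg (fun u => f (T * u))| ≤
        C₂ * (T / U) ^ (1 / 4 : ℝ))
    (Q δ₀ c₀ : ℝ) (hQ : 1 ≤ Q) (hc₀ : c₀ = nm k * nS np (SP K P)) (hQc : c₀ * Q ^ (-e) ≤ 1)
    (hd1 : δ₀ ≤ (1 - θ) / 4) (hd2 : δ₀ ≤ e / 4)
    (S : Finset (PrI K)) (hS : S ∈ DP K P (Q ^ θ)) (T : Finset (PrI K))
    (hT : T ∈ DP K P (Q ^ θ)) (R₁ : Finset (PrI K)) (hR₁ : R₁ ∈ S.powerset)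
    (R₀ : Finset (PrI K)) (hR₀ : R₀ ∈ (SP K P).powerset) :
    |sumC (K := K) P (fun n => ha R₁ (idS T * n) *
        (ps K W H (nS np T / (nm k * (nS np R₁ * nS np R₀) * Q) * nm n) *
          (G ((Q ^ (1 + e))⁻¹ * nm n) * G (nS np T / (nS np S * Q ^ (1 + e)) * nm n)) / nm n)) -
      rr * fS np (R₁ ∩ T) * (if R₁ \ T = ∅ then (Real.log (nm k) + Real.log (nS np R₀) +
        Real.log Q - Real.log (nS np T) + g + Lg (ps K W H)) + Real.log (nS np (R₁ ∩ T)) else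
          if (R₁ \ T).card = 1 then -Real.log (nS np (R₁ \ T)) else 0)| ≤
      (C₁ * (2 * (1 + A₁) * (1 + B)) + rr * (C₂ * c₀ ^ (1 / 4 : ℝ))) * 2 ^ S.card *
        fS np (R₁ ∩ T) * Q ^ (-δ₀) := by
  obtain ⟨hθ, he, hle⟩ := hpar
  have hQ0 : 0 < Q := by linarith
  have hy : 1 ≤ Q ^ θ := Real.one_le_rpow hQ hθ.le
  obtain ⟨-, -, -, hS1, hS2, -⟩ := h8 K P (Q ^ θ) hy S hS
  obtain ⟨-, -, -, hT1, hT2, -⟩ := h8 K P (Q ^ θ) hy T hT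
  have hk1 : 1 ≤ nm k := one_le_nm hk
  have hR1S : R₁ ⊆ S := Finset.mem_powerset.1 hR₁
  have hR0S : R₀ ⊆ SP K P := Finset.mem_powerset.1 hR₀
  have hZ0 : 0 < Q ^ (1 + e) := Real.rpow_pos_of_pos hQ0 _
  have hr1 : 1 ≤ nS np R₁ := one_le_nS _
  have hr0 : 1 ≤ nS np R₀ := one_le_nS _
  have hr1S : nS np R₁ ≤ nS np S := nS_mono hR1S
  have hr0c : nm k * nS np R₀ ≤ c₀ := by
    rw [hc₀]
    exact mul_le_mul_of_nonneg_left (nS_mono hR0S) (by linarith)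
  have hc₀p : 0 < c₀ := lt_of_lt_of_le (by positivity) hr0c
  have hw1 : 1 ≤ nS np (R₁ \ T) := one_le_nS _
  have hv1 : 1 ≤ nS np (R₁ ∩ T) := one_le_nS _
  have hr1w : nS np R₁ = nS np (R₁ ∩ T) * nS np (R₁ \ T) := nS_split np R₁ T
  have hwS : nS np (R₁ \ T) ≤ nS np S := nS_mono (Finset.sdiff_subset.trans hR1S)
  have hB0 : 0 ≤ B := by rw [hB]; positivity
  have hf0 := fS_nonneg (R₁ ∩ T)
  have hp1 : 0 < nm k * (nS np R₁ * nS np R₀) * Q := by positivity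
  obtain ⟨f₁', f₂', f₃', e1, e23, e123⟩ := sl3 (K := K) (T0 := nS np T) (S0 := nS np S)
    (Z := Q ^ (1 + e)) h3 h4 hA₁ hA₂ hB hps hG hp1 (by linarith) (by linarith) hZ0
  have m4 := real_a (κ := nm k) (r0 := nS np R₀) hQ he hk1 hr0 hS1 hT1 hS2 hT2 hw1 hv1 hr1w hwS
  obtain ⟨m5, m6⟩ := real_b hQ (by linarith) hd1 hw1 m4
  have hA0 : 0 ≤ 2 * (1 + A₁) * (1 + B) := by positivity
  have main := hco _ _ _ (2 * (1 + A₁) * (1 + B)) (Q ^ θ) hA0 hy e123 S hS T hT R₁ hR₁ m5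
  have hQd : 0 < Q ^ (-δ₀) := Real.rpow_pos_of_pos hQ0 _
  have hcard : (2 : ℝ) ^ R₁.card ≤ 2 ^ S.card :=
    pow_le_pow_right₀ (by norm_num) (Finset.card_le_card hR1S)
  have hcard1 : (1 : ℝ) ≤ 2 ^ S.card := one_le_pow₀ (by norm_num)
  have main2 := main.trans (mul_le_mul (mul_le_mul_of_nonneg_right
    (mul_le_mul_of_nonneg_left hcard (mul_nonneg hC₁ hA0)) hf0) m6
    (Real.rpow_nonneg (by positivity) _) (by positivity))
  have hc4 : 0 ≤ c₀ ^ (1 / 4 : ℝ) := by positivity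
  by_cases hsub : R₁ ⊆ T
  · -- the first case
    have hdiff : R₁ \ T = ∅ := Finset.sdiff_eq_empty_iff_subset.2 hsub
    have hint : R₁ ∩ T = R₁ := Finset.inter_eq_left.2 hsub
    rw [if_pos hsub] at main2
    rw [if_pos hdiff]
    have hr1T : nS np R₁ ≤ nS np T := nS_mono hsub
    have n3 := real_c (e := e) hQ hk1 hr0 hr1 hS1 hT1 hr0c hr1T hr1S
    have hU0 : 0 < min (Q ^ (1 + e)) (nS np S * Q ^ (1 + e) / nS np T) :=
      lt_min hZ0 (by positivity)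
    have n4 := n3.trans (mul_le_mul_of_nonneg_right hQc hU0.le)
    rw [one_mul] at n4
    have hT1p : 0 < nm k * (nS np R₁ * nS np R₀) * Q / nS np T := by positivity
    have n6 := real_d hQ hc₀p.le hT1p.le hU0 hd2 n3
    have n7 := (hlg _ _ _ _ _ _ hT1p n4 e1 e23).trans (mul_le_mul_of_nonneg_left n6 hC₂)
    rw [min_eq_left n4, real_e hk1 hr1 hr0 hQ hT1] at main2
    have n8 : (fun u => ps K W H (nS np T / (nm k * (nS np R₁ * nS np R₀) * Q) *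
        (nm k * (nS np R₁ * nS np R₀) * Q / nS np T * u))) = ps K W H := by
      funext u
      refine congrArg _ ?_
      field_simp
    rw [n8] at n7
    have n9 := real_f (C2 := C₂) (c4 := c₀ ^ (1 / 4 : ℝ)) (q := Q ^ (-δ₀))
        (Y' := Real.log (nm k) + Real.log (nS np R₀) +
        Real.log Q - Real.log (nS np T) + g + Lg (ps K W H) + Real.log (nS np (R₁ ∩ T)))
      hrr hf0 main2 ?_
    · refine n9.trans ?_
      have h1 : 0 ≤ rr * (C₂ * c₀ ^ (1 / 4 : ℝ)) * fS np (R₁ ∩ T) * Q ^ (-δ₀) := by positivity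
      calc _ ≤ C₁ * (2 * (1 + A₁) * (1 + B)) * 2 ^ S.card * fS np (R₁ ∩ T) * Q ^ (-δ₀) +
            2 ^ S.card * (rr * (C₂ * c₀ ^ (1 / 4 : ℝ)) * fS np (R₁ ∩ T) * Q ^ (-δ₀)) := by
            refine add_le_add le_rfl ?_
            exact le_mul_of_one_le_left h1 hcard1
        _ = _ := by ring
    · rw [hint]
      refine le_trans (le_of_eq ?_) n7
      congr 1
      ring
  · have hdiff : R₁ \ T ≠ ∅ := fun h => hsub (Finset.sdiff_eq_empty_iff_subset.1 h)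
    rw [if_neg hsub] at main2
    rw [if_neg hdiff]
    refine main2.trans ?_
    have h2 : 0 ≤ rr * (C₂ * c₀ ^ (1 / 4 : ℝ)) * 2 ^ S.card * fS np (R₁ ∩ T) * Q ^ (-δ₀) := by
      positivity
    calc _ ≤ C₁ * (2 * (1 + A₁) * (1 + B)) * 2 ^ S.card * fS np (R₁ ∩ T) * Q ^ (-δ₀) +
          rr * (C₂ * c₀ ^ (1 / 4 : ℝ)) * 2 ^ S.card * fS np (R₁ ∩ T) * Q ^ (-δ₀) :=
          le_add_of_nonneg_right h2
      _ = _ := by ring

end key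

end Pool.Agent.H10.HH
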